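import Pool.Agent.Results.MP_beb4a5_ag.RelativeModels

/-!
# MP_beb4a5_ag: the number of minimal models of irregular varieties

If a smooth projective variety `X` (or a free finite cover of it) has a fibration over a variety
without rational curves whose general fibre is a point or a variety of general type, then the number
of minimal models of `X`, as birational models, is bounded in terms of the dimension of `X` and a
volume.  This applies to all varieties of maximal Albanese dimension.
-/

set_option autoImplicit false
set_option linter.checkUnivs false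

namespace Pool.Agent.Results.MP_beb4a5_ag.IrregularBound

open CategoryTheory RelativeModels

universe v u

/-- Very ample divisors and volumes. -/
structure Polar (T : Geo.{v, u}) where
  /-- the very ample divisors on `S` -/
  Ample : T.V → Type u
  /-- the volume of `K_X + f^*H` -/
  vol : ∀ {X S : T.V}, (X ⟶ S) → Ample S → ℝ

variable {T : Geo.{v, u}}

/-- Among the minimal models `(Y, φ)` of `X` with `Reg (φ ≫ f)` (the minimal models of `X` over `S`)
there are at most `N`, even if the birational map to `X` is kept. -/
def AtMostOver {X S : T.V} (f : X ⟶ S) (N : ℕ) : Prop :=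
  ∃ s : Finset (Σ Y : T.V, Y ≅ X), s.card ≤ N ∧ ∀ (Y : T.V) (φ : Y ≅ X), MinModel X Y →
    T.Reg (φ.hom ≫ f) → ∃ p ∈ s, ∃ e : Y ≅ p.1, T.Reg e.hom ∧ T.Reg e.inv ∧ e.hom ≫ p.2.hom = φ.hom

/-- there are at most `N` minimal models of `X` even if the birational map to `X` is kept -/
def MarkedAtMost (X : T.V) (N : ℕ) : Prop :=
  ∃ s : Finset (Σ Y : T.V, Y ≅ X), s.card ≤ N ∧ ∀ (Y : T.V) (φ : Y ≅ X), MinModel X Y →
    ∃ p ∈ s, ∃ e : Y ≅ p.1, T.Reg e.hom ∧ T.Reg e.inv ∧ e.hom ≫ p.2.hom = φ.hom

/-- The theorem of Martinelli, Schreieder and Tasin on the number of weak log canonical models,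
applied to the pairs `(X, D / 2)`, `D` a general member of `|2 f^*H|`. -/
structure Number (P : Polar T) : Prop where
  /-- `K_X + f^*H` is big, as the general fibre of `f` is of general type -/
  bound : ∃ N : ℕ → ℝ → ℕ, ∀ {X S : T.V} (f : X ⟶ S) (H : P.Ample S), T.Smooth X → T.Reg f →
    T.Conn f → defect (T.dim X - T.dim S) (T.relKod f) = 0 → AtMostOver f (N (T.dim X) (P.vol f H))

/-- **The number of minimal models of irregular varieties.**  Let `T` satisfy the known facts
`VarFacts`, `QuotFacts` and `Number`.  There is a function `N` such that `X` has at most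
`N (dim X) (vol (K_X + f^*H))` minimal models, even if the birational map to `X` is kept, if `X` is
the quotient of a smooth variety `X'` by a finite group acting freely, `X' → S'` is an equivariant
fibration, `S'` has no rational curve, the general fibre of `X' → S'` is of general type (or a
point), `f : X → S` is the quotient of `X' → S'` and `H` is a very ample divisor on `S`. -/
theorem result (T : Geo.{v, u}) (P : Polar T) (hV : VarFacts T) (hQ : QuotFacts T)
    (hN : Number P) : ∃ N : ℕ → ℝ → ℕ, ∀ (G : Type) [Group G] [Finite G] (F : Fib T G) {X S : T.V}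
      (f : X ⟶ S), Over F f → F.defect = 0 → ∀ H : P.Ample S,
        MarkedAtMost X (N (T.dim X) (P.vol f H)) := by
  obtain ⟨N, hN⟩ := hN.bound
  refine ⟨N, fun G _ _ F X S f hF hd H => ?_⟩
  obtain ⟨hs, hr, hc, h1, h2⟩ := over_fib hV hQ F f hF
  obtain ⟨s, h3, h4⟩ := hN f H hs hr hc (h1.trans hd)
  exact ⟨s, h3, fun Y φ hY => h4 Y φ hY (h2 Y φ hY)⟩

end Pool.Agent.Results.MP_beb4a5_ag.IrregularBound
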