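import Mathlib

/-!
# MP_beb4a5_ag: minimal models of products

`MMPData` is the language of the minimal model program for projective varieties over `ℂ` with
`ℚ`-factorial terminal singularities; `MMPFacts` records known facts.  Everything else is proved
here.
-/

set_option autoImplicit false

namespace Pool.Agent.Results.MP_beb4a5_ag.Products

open Relation

universe u

/-- The projective varieties over `ℂ` with `ℚ`-factorial terminal singularities, and their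
products. -/
structure VarData where
  /-- the projective varieties over `ℂ` with `ℚ`-factorial terminal singularities -/
  Var : Type u
  /-- `X` is smooth -/
  Smooth : Var → Prop
  dim : Var → ℕ
  /-- the Kodaira dimension of a resolution, `⊥` for `-∞` -/
  kod : Var → WithBot ℕ
  /-- `X` and `Y` are isomorphic -/
  Iso : Var → Var → Prop
  /-- `X` and `Y` are birational -/
  Bir : Var → Var → Prop
  /-- the product `Y × Z` -/
  prod : Var → Var → Var

/-- Their curve classes, and the birational steps of the minimal model program (divisorial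
contractions, flips, flops). -/
structure CurveData extends VarData.{u} where
  /-- the real vector space `N₁(Y)` of the 1-cycles modulo numerical equivalence -/
  N : Var → Type u
  [addCommGroup : ∀ Y, AddCommGroup (N Y)]
  [module : ∀ Y, Module ℝ (N Y)]
  /-- the closed cone of curves -/
  NE : ∀ Y, Set (N Y)
  /-- the degree of the canonical divisor -/
  K : ∀ Y, N Y → ℝ
  /-- the degrees of the effective `ℚ`-divisors -/
  Eff : ∀ Y, Set (N Y → ℝ)
  /-- the classes of the rational curves -/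
  Rat : ∀ Y, Set (N Y)
  /-- the curves with class in the ray spanned by `c` cover `Y` -/
  Fibre : ∀ Y, N Y → Prop
  /-- the curves with class in the ray spanned by `c` are contained in a closed subset of
  codimension at least two -/
  Small : ∀ Y, N Y → Prop
  /-- `Y'` is the divisorial contraction, the flip or the flop of the extremal ray spanned by `c`
  (flops: of small `K`-trivial rays on which some effective divisor is negative) -/
  Step : ∀ Y, N Y → Var → Prop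

attribute [instance] CurveData.addCommGroup CurveData.module

/-- The curve classes of products. -/
structure MMPData extends CurveData.{u} where
  /-- push forward to `Y × Z` by `y ↦ (y, z)`, for any point `z` -/
  in₁ : ∀ Y Z, N Y → N (prod Y Z)
  /-- push forward to `Y × Z` by `z ↦ (y, z)`, for any point `y` -/
  in₂ : ∀ Y Z, N Z → N (prod Y Z)
  /-- push forward by the projection to `Y` -/
  pr₁ : ∀ Y Z, N (prod Y Z) → N Y
  /-- push forward by the projection to `Z` -/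
  pr₂ : ∀ Y Z, N (prod Y Z) → N Z

section defs

variable (T : CurveData.{u})

/-- `K_Y` is nef -/
def Nef (Y : T.Var) : Prop := ∀ c ∈ T.NE Y, 0 ≤ T.K Y c

/-- `Y` is a minimal model of `X` -/
def MinModel (X Y : T.Var) : Prop := T.Bir X Y ∧ Nef T Y

/-- `X` has at most `m` minimal models up to isomorphism -/
def AtMost (X : T.Var) (m : ℕ) : Prop :=
  ∃ F : Finset T.Var, F.card ≤ m ∧ ∀ Y, MinModel T X Y → ∃ Y' ∈ F, T.Iso Y Y'

/-- **Q1** for `X`: there are only finitely many minimal models of `X` up to isomorphism -/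
def Q1For (X : T.Var) : Prop := ∃ m, AtMost T X m

/-- `c` spans an extremal ray of the cone of curves -/
def Extremal (Y : T.Var) (c : T.N Y) : Prop :=
  c ≠ 0 ∧ c ∈ T.NE Y ∧ ∀ a ∈ T.NE Y, ∀ b ∈ T.NE Y, a + b = c → ∃ t : ℝ, 0 ≤ t ∧ a = t • c

/-- `c` spans an extremal ray which is `K`-negative and not of fibre type, or `K`-trivial, small and
negative on some effective divisor (the rays of divisorial contractions, flips and flops) -/
def Adm (Y : T.Var) (c : T.N Y) : Prop :=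
  Extremal T Y c ∧ ((T.K Y c < 0 ∧ ¬ T.Fibre Y c) ∨
    (T.K Y c = 0 ∧ T.Small Y c ∧ ∃ D ∈ T.Eff Y, D c < 0))

/-- some step leads from `Y` to `Y'` -/
def Next (Y Y' : T.Var) : Prop := ∃ c, T.Step Y c Y'

/-- the varieties obtained from `Seed` by products and birational changes -/
inductive Generated (V : VarData.{u}) (Seed : V.Var → Prop) : V.Var → Prop
  | seed : ∀ X, Seed X → Generated V Seed X
  | prod : ∀ X Y, Generated V Seed X → Generated V Seed Y → Generated V Seed (V.prod X Y)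
  | bir : ∀ X Y, V.Bir X Y → Generated V Seed X → Generated V Seed Y

end defs

/-- Facts about the steps of the minimal model program. -/
structure StepFacts (T : CurveData.{u}) : Prop where
  iso_equiv : Equivalence T.Iso
  bir_equiv : Equivalence T.Bir
  iso_bir : ∀ {Y Y'}, T.Iso Y Y' → T.Bir Y Y'
  /-- transport by an isomorphism -/
  iso_map : ∀ {Y Y'}, T.Iso Y Y' → ∃ e : T.N Y → T.N Y', (∀ c' ∈ T.NE Y', ∃ c ∈ T.NE Y, e c = c') ∧
    (∀ c, T.K Y' (e c) = T.K Y c) ∧ ∀ c W, T.Step Y c W → T.Step Y' (e c) W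
  /-- the rays of the steps -/
  step_adm : ∀ {Y c W}, T.Step Y c W → Adm T Y c
  /-- contraction theorem, existence of flips and flops -/
  step_exists : ∀ {Y c}, Adm T Y c → ∃ W, T.Step Y c W
  step_unique : ∀ {Y c W W'}, T.Step Y c W → T.Step Y c W' → T.Iso W W'
  step_bir : ∀ {Y c W}, T.Step Y c W → T.Bir Y W
  /-- these rays are spanned by rational curves (Mori, Kawamata) -/
  rational : ∀ {Y c}, Adm T Y c → ∃ t : ℝ, 0 < t ∧ t • c ∈ T.Rat Y
  /-- if `X` has a minimal model, the minimal model program with scaling of an ample divisor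
  terminates (Birkar), and minimal models are connected by flops (Kawamata) -/
  chain : ∀ {X W}, MinModel T X W → ∃ W', ReflTransGen (Next T) X W' ∧ T.Iso W' W

/-- Numerical facts about products. -/
structure NumFacts (T : MMPData.{u}) : Prop where
  in₁_linear : ∀ Y Z, IsLinearMap ℝ (T.in₁ Y Z)
  in₂_linear : ∀ Y Z, IsLinearMap ℝ (T.in₂ Y Z)
  pr₁_linear : ∀ Y Z, IsLinearMap ℝ (T.pr₁ Y Z)
  pr₂_linear : ∀ Y Z, IsLinearMap ℝ (T.pr₂ Y Z)
  K_linear : ∀ Y, IsLinearMap ℝ (T.K Y)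
  pr₁_in₁ : ∀ Y Z c, T.pr₁ Y Z (T.in₁ Y Z c) = c
  pr₂_in₁ : ∀ Y Z c, T.pr₂ Y Z (T.in₁ Y Z c) = 0
  pr₁_in₂ : ∀ Y Z c, T.pr₁ Y Z (T.in₂ Y Z c) = 0
  pr₂_in₂ : ∀ Y Z c, T.pr₂ Y Z (T.in₂ Y Z c) = c
  in₁_NE : ∀ Y Z, ∀ c ∈ T.NE Y, T.in₁ Y Z c ∈ T.NE (T.prod Y Z)
  in₂_NE : ∀ Y Z, ∀ c ∈ T.NE Z, T.in₂ Y Z c ∈ T.NE (T.prod Y Z)
  pr₁_NE : ∀ Y Z, ∀ c ∈ T.NE (T.prod Y Z), T.pr₁ Y Z c ∈ T.NE Y
  pr₂_NE : ∀ Y Z, ∀ c ∈ T.NE (T.prod Y Z), T.pr₂ Y Z c ∈ T.NE Z
  /-- the class of a rational curve in a product is the sum of the classes of its projections -/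
  rat_prod : ∀ Y Z, ∀ c ∈ T.Rat (T.prod Y Z), c = T.in₁ Y Z (T.pr₁ Y Z c) + T.in₂ Y Z (T.pr₂ Y Z c)
  K_prod : ∀ Y Z c, T.K (T.prod Y Z) c = T.K Y (T.pr₁ Y Z c) + T.K Z (T.pr₂ Y Z c)

/-- Facts about the rays of products. -/
structure RayFacts (T : MMPData.{u}) : Prop where
  /-- restriction of an effective divisor to a general `Y × z` -/
  eff₁ : ∀ Y Z, ∀ D ∈ T.Eff (T.prod Y Z), D ∘ T.in₁ Y Z ∈ T.Eff Y
  eff₂ : ∀ Y Z, ∀ D ∈ T.Eff (T.prod Y Z), D ∘ T.in₂ Y Z ∈ T.Eff Z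
  /-- the curves with class in the ray of `in₁ c` lie in the `Y × z` and have class in the ray of
  `c` -/
  fibre₁ : ∀ Y Z c, T.Fibre Y c → T.Fibre (T.prod Y Z) (T.in₁ Y Z c)
  fibre₂ : ∀ Y Z c, T.Fibre Z c → T.Fibre (T.prod Y Z) (T.in₂ Y Z c)
  small₁ : ∀ Y Z c, T.Small (T.prod Y Z) (T.in₁ Y Z c) → T.Small Y c
  small₂ : ∀ Y Z c, T.Small (T.prod Y Z) (T.in₂ Y Z c) → T.Small Z c
  step₁ : ∀ {Y Z c Y'}, T.Step Y c Y' → T.Step (T.prod Y Z) (T.in₁ Y Z c) (T.prod Y' Z)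
  step₂ : ∀ {Y Z c Z'}, T.Step Z c Z' → T.Step (T.prod Y Z) (T.in₂ Y Z c) (T.prod Y Z')

/-- Elementary facts about products. -/
structure ProdFacts (T : CurveData.{u}) : Prop where
  iso_prod : ∀ {Y Y' Z Z'}, T.Iso Y Y' → T.Iso Z Z' → T.Iso (T.prod Y Z) (T.prod Y' Z')
  bir_prod : ∀ {Y Y' Z Z'}, T.Bir Y Y' → T.Bir Z Z' → T.Bir (T.prod Y Z) (T.prod Y' Z')
  smooth_prod : ∀ {Y Z}, T.Smooth Y → T.Smooth Z → T.Smooth (T.prod Y Z)
  dim_prod : ∀ Y Z, T.dim (T.prod Y Z) = T.dim Y + T.dim Z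
  kod_prod : ∀ Y Z, T.kod (T.prod Y Z) = T.kod Y + T.kod Z
  bir_dim : ∀ {X Y}, T.Bir X Y → T.dim X = T.dim Y
  /-- products of `j` curves of genus at least two and an abelian variety of dimension `r - j`,
  whose Albanese variety has no isogeny factor in common with the Albanese variety of `Y` -/
  complement : ∀ Y, ∀ r j : ℕ, j ≤ r → ∃ Z, T.Smooth Z ∧ T.dim Z = r ∧ T.kod Z = (j : WithBot ℕ) ∧
    Nef T Z ∧ ∀ Y' Y'', T.Bir Y Y' → T.Bir Y Y'' → T.Iso (T.prod Y' Z) (T.prod Y'' Z) → T.Iso Y' Y''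

/-- The facts about minimal models used here. -/
structure MMPFacts (T : MMPData.{u}) : Prop extends StepFacts T.toCurveData, NumFacts T, RayFacts T,
  ProdFacts T.toCurveData

section proofs

variable {T : MMPData.{u}} (h : MMPFacts T)

include h

/-! ### Rays and steps of a product -/

theorem nef_iso {Y Y' : T.Var} (hi : T.Iso Y Y') (hY : Nef T.toCurveData Y) : Nef T.toCurveData Y' := by
  obtain ⟨e, h1, h2, -⟩ := h.iso_map hi
  intro c' hc'
  obtain ⟨c, hc, rfl⟩ := h1 c' hc'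
  rw [h2]
  exact hY c hc

theorem nef_prod {Y Z : T.Var} : Nef T.toCurveData (T.prod Y Z) ↔ Nef T.toCurveData Y ∧ Nef T.toCurveData Z := by
  constructor
  · intro hn
    refine ⟨fun c hc => ?_, fun c hc => ?_⟩
    · have h1 := hn _ (h.in₁_NE Y Z c hc)
      rwa [h.K_prod, h.pr₁_in₁, h.pr₂_in₁, (h.K_linear Z).map_zero, add_zero] at h1
    · have h1 := hn _ (h.in₂_NE Y Z c hc)
      rwa [h.K_prod, h.pr₁_in₂, h.pr₂_in₂, (h.K_linear Y).map_zero, zero_add] at h1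
  · rintro ⟨h1, h2⟩ c hc
    rw [h.K_prod]
    exact add_nonneg (h1 _ (h.pr₁_NE Y Z c hc)) (h2 _ (h.pr₂_NE Y Z c hc))

theorem in₁_inj {Y Z : T.Var} {a b : T.N Y} (hab : T.in₁ Y Z a = T.in₁ Y Z b) : a = b := by
  rw [← h.pr₁_in₁ Y Z a, hab, h.pr₁_in₁]

theorem in₂_inj {Y Z : T.Var} {a b : T.N Z} (hab : T.in₂ Y Z a = T.in₂ Y Z b) : a = b := by
  rw [← h.pr₂_in₂ Y Z a, hab, h.pr₂_in₂]

theorem adm₁ {Y Z : T.Var} {c : T.N Y} (hc : Adm T.toCurveData (T.prod Y Z) (T.in₁ Y Z c))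
    (hne : c ∈ T.NE Y) : Adm T.toCurveData Y c := by
  obtain ⟨⟨h0, -, hext⟩, hk⟩ := hc
  have hK : T.K (T.prod Y Z) (T.in₁ Y Z c) = T.K Y c := by
    rw [h.K_prod, h.pr₁_in₁, h.pr₂_in₁, (h.K_linear Z).map_zero, add_zero]
  refine ⟨⟨fun h1 => h0 (by rw [h1, (h.in₁_linear Y Z).map_zero]), hne,
    fun a ha b hb hab => ?_⟩, ?_⟩
  · obtain ⟨t, ht, h1⟩ := hext _ (h.in₁_NE Y Z a ha) _ (h.in₁_NE Y Z b hb)
      (by rw [← (h.in₁_linear Y Z).map_add, hab])
    exact ⟨t, ht, in₁_inj h (Z := Z) (by rw [h1, (h.in₁_linear Y Z).map_smul])⟩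
  · rw [hK] at hk
    rcases hk with ⟨h1, h2⟩ | ⟨h1, h2, D, hD, h3⟩
    · exact Or.inl ⟨h1, fun h4 => h2 (h.fibre₁ Y Z c h4)⟩
    · exact Or.inr ⟨h1, h.small₁ Y Z c h2, _, h.eff₁ Y Z D hD, h3⟩

theorem adm₂ {Y Z : T.Var} {c : T.N Z} (hc : Adm T.toCurveData (T.prod Y Z) (T.in₂ Y Z c))
    (hne : c ∈ T.NE Z) : Adm T.toCurveData Z c := by
  obtain ⟨⟨h0, -, hext⟩, hk⟩ := hc
  have hK : T.K (T.prod Y Z) (T.in₂ Y Z c) = T.K Z c := by
    rw [h.K_prod, h.pr₁_in₂, h.pr₂_in₂, (h.K_linear Y).map_zero, zero_add]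
  refine ⟨⟨fun h1 => h0 (by rw [h1, (h.in₂_linear Y Z).map_zero]), hne,
    fun a ha b hb hab => ?_⟩, ?_⟩
  · obtain ⟨t, ht, h1⟩ := hext _ (h.in₂_NE Y Z a ha) _ (h.in₂_NE Y Z b hb)
      (by rw [← (h.in₂_linear Y Z).map_add, hab])
    exact ⟨t, ht, in₂_inj h (Y := Y) (by rw [h1, (h.in₂_linear Y Z).map_smul])⟩
  · rw [hK] at hk
    rcases hk with ⟨h1, h2⟩ | ⟨h1, h2, D, hD, h3⟩
    · exact Or.inl ⟨h1, fun h4 => h2 (h.fibre₂ Y Z c h4)⟩
    · exact Or.inr ⟨h1, h.small₂ Y Z c h2, _, h.eff₂ Y Z D hD, h3⟩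

/-- **The rays of a product come from the factors.** -/
theorem ray_prod {Y Z : T.Var} {c : T.N (T.prod Y Z)} (hc : Adm T.toCurveData (T.prod Y Z) c) :
    (∃ a, Adm T.toCurveData Y a ∧ c = T.in₁ Y Z a) ∨ ∃ b, Adm T.toCurveData Z b ∧ c = T.in₂ Y Z b := by
  set a := T.pr₁ Y Z c with ha
  set b := T.pr₂ Y Z c with hb
  have hsum : c = T.in₁ Y Z a + T.in₂ Y Z b := by
    obtain ⟨t, ht, hr⟩ := h.rational hc
    have h1 := h.rat_prod Y Z _ hr
    rw [(h.pr₁_linear Y Z).map_smul, (h.pr₂_linear Y Z).map_smul, (h.in₁_linear Y Z).map_smul,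
      (h.in₂_linear Y Z).map_smul, ← smul_add] at h1
    exact smul_right_injective _ ht.ne' h1
  have haN : a ∈ T.NE Y := h.pr₁_NE Y Z c hc.1.2.1
  have hbN : b ∈ T.NE Z := h.pr₂_NE Y Z c hc.1.2.1
  obtain ⟨t, -, h1⟩ := hc.1.2.2 _ (h.in₁_NE Y Z a haN) _ (h.in₂_NE Y Z b hbN) hsum.symm
  have h2 : a = t • a := by
    have h3 := congrArg (T.pr₁ Y Z) h1
    rwa [h.pr₁_in₁, (h.pr₁_linear Y Z).map_smul, ← ha] at h3
  by_cases h3 : a = 0
  · right
    have h4 : c = T.in₂ Y Z b := by rw [hsum, h3, (h.in₁_linear Y Z).map_zero, zero_add]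
    exact ⟨b, adm₂ h (h4 ▸ hc) hbN, h4⟩
  · left
    have h4 : t = 1 := by
      have h5 : (1 - t) • a = 0 := by rw [sub_smul, one_smul, ← h2, sub_self]
      rcases smul_eq_zero.1 h5 with h6 | h6
      · linarith
      · exact absurd h6 h3
    have h5 : c = T.in₁ Y Z a := by rw [h1, h4, one_smul]
    exact ⟨a, adm₁ h (h5 ▸ hc) haN, h5⟩

/-- **The steps of a product are the steps of the factors.** -/
theorem step_prod {Y Z W : T.Var} {c : T.N (T.prod Y Z)} (hs : T.Step (T.prod Y Z) c W) :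
    (∃ Y', Next T.toCurveData Y Y' ∧ T.Iso W (T.prod Y' Z)) ∨ ∃ Z', Next T.toCurveData Z Z' ∧ T.Iso W (T.prod Y Z') := by
  rcases ray_prod h (h.step_adm hs) with ⟨a, ha, rfl⟩ | ⟨b, hb, rfl⟩
  · obtain ⟨Y', hY'⟩ := h.step_exists ha
    exact Or.inl ⟨Y', ⟨a, hY'⟩, h.step_unique hs (h.step₁ hY')⟩
  · obtain ⟨Z', hZ'⟩ := h.step_exists hb
    exact Or.inr ⟨Z', ⟨b, hZ'⟩, h.step_unique hs (h.step₂ hZ')⟩

theorem chain_prod {Y Z W : T.Var} (hc : ReflTransGen (Next T.toCurveData) (T.prod Y Z) W) :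
    ∃ Y' Z', T.Bir Y Y' ∧ T.Bir Z Z' ∧ T.Iso W (T.prod Y' Z') := by
  induction hc with
  | refl => exact ⟨Y, Z, h.bir_equiv.refl Y, h.bir_equiv.refl Z, h.iso_equiv.refl _⟩
  | tail _ hstep ih =>
    obtain ⟨Y', Z', h1, h2, h3⟩ := ih
    obtain ⟨c, hc⟩ := hstep
    obtain ⟨e, -, -, he⟩ := h.iso_map h3
    rcases step_prod h (he c _ hc) with ⟨Y'', ⟨a, ha⟩, h4⟩ | ⟨Z'', ⟨b, hb⟩, h4⟩
    · exact ⟨Y'', Z', h.bir_equiv.trans h1 (h.step_bir ha), h2, h4⟩
    · exact ⟨Y', Z'', h1, h.bir_equiv.trans h2 (h.step_bir hb), h4⟩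

/-- **The minimal models of a product are the products of the minimal models.** -/
theorem minModel_prod {X₁ X₂ W : T.Var} : MinModel T.toCurveData (T.prod X₁ X₂) W ↔
    ∃ Y₁ Y₂, MinModel T.toCurveData X₁ Y₁ ∧ MinModel T.toCurveData X₂ Y₂ ∧ T.Iso W (T.prod Y₁ Y₂) := by
  constructor
  · intro hW
    obtain ⟨W', h1, h2⟩ := h.chain hW
    obtain ⟨Y₁, Y₂, h3, h4, h5⟩ := chain_prod h h1
    have h6 : T.Iso W (T.prod Y₁ Y₂) := h.iso_equiv.trans (h.iso_equiv.symm h2) h5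
    obtain ⟨h7, h8⟩ := (nef_prod h).1 (nef_iso h h6 hW.2)
    exact ⟨Y₁, Y₂, ⟨h3, h7⟩, ⟨h4, h8⟩, h6⟩
  · rintro ⟨Y₁, Y₂, h1, h2, h3⟩
    have h4 := h.iso_equiv.symm h3
    exact ⟨h.bir_equiv.trans (h.bir_prod h1.1 h2.1) (h.iso_bir h4),
      nef_iso h h4 ((nef_prod h).2 ⟨h1.2, h2.2⟩)⟩

/-! ### Consequences -/

theorem atMost_prod {X₁ X₂ : T.Var} {m₁ m₂ : ℕ} (h1 : AtMost T.toCurveData X₁ m₁) (h2 : AtMost T.toCurveData X₂ m₂) :
    AtMost T.toCurveData (T.prod X₁ X₂) (m₁ * m₂) := by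
  classical
  obtain ⟨F₁, hc₁, hF₁⟩ := h1
  obtain ⟨F₂, hc₂, hF₂⟩ := h2
  refine ⟨(F₁ ×ˢ F₂).image fun p => T.prod p.1 p.2, ?_, fun W hW => ?_⟩
  · refine Finset.card_image_le.trans ?_
    rw [Finset.card_product]
    exact Nat.mul_le_mul hc₁ hc₂
  · obtain ⟨Y₁, Y₂, h3, h4, h5⟩ := (minModel_prod h).1 hW
    obtain ⟨Y₁', h6, h7⟩ := hF₁ Y₁ h3
    obtain ⟨Y₂', h8, h9⟩ := hF₂ Y₂ h4
    exact ⟨T.prod Y₁' Y₂', Finset.mem_image.2 ⟨(Y₁', Y₂'), Finset.mk_mem_product h6 h8, rfl⟩,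
      h.iso_equiv.trans h5 (h.iso_prod h7 h9)⟩

theorem q1_prod {X₁ X₂ : T.Var} (h1 : Q1For T.toCurveData X₁) (h2 : Q1For T.toCurveData X₂) :
    Q1For T.toCurveData (T.prod X₁ X₂) := by
  obtain ⟨m₁, h3⟩ := h1
  obtain ⟨m₂, h4⟩ := h2
  exact ⟨_, atMost_prod h h3 h4⟩

theorem q1_bir {X X' : T.Var} (hb : T.Bir X X') (h1 : Q1For T.toCurveData X) : Q1For T.toCurveData X' := by
  obtain ⟨m, F, h2, h3⟩ := h1
  exact ⟨m, F, h2, fun Y hY => h3 Y ⟨h.bir_equiv.trans hb hY.1, hY.2⟩⟩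

theorem q1_generated {Seed : T.Var → Prop} (hS : ∀ X, Seed X → Q1For T.toCurveData X) {X : T.Var}
    (hX : Generated T.toVarData Seed X) : Q1For T.toCurveData X := by
  induction hX with
  | seed X hX => exact hS X hX
  | prod X Y _ _ ih₁ ih₂ => exact q1_prod h ih₁ ih₂
  | bir X Y hb _ ih => exact q1_bir h hb ih

/-- cancellation of a factor -/
theorem q1_cancel {X Z : T.Var} (hZ : Nef T.toCurveData Z)
    (hcan : ∀ Y' Y'', T.Bir X Y' → T.Bir X Y'' → T.Iso (T.prod Y' Z) (T.prod Y'' Z) → T.Iso Y' Y'')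
    (hq : Q1For T.toCurveData (T.prod X Z)) : Q1For T.toCurveData X := by
  classical
  obtain ⟨m, F, -, hF⟩ := hq
  let g : T.Var → T.Var := fun f =>
    if hf : ∃ Y, MinModel T.toCurveData X Y ∧ T.Iso (T.prod Y Z) f then hf.choose else X
  refine ⟨(F.image g).card, F.image g, le_rfl, fun Y hY => ?_⟩
  have h1 : MinModel T.toCurveData (T.prod X Z) (T.prod Y Z) :=
    ⟨h.bir_prod hY.1 (h.bir_equiv.refl Z), (nef_prod h).2 ⟨hY.2, hZ⟩⟩
  obtain ⟨f, hfF, hf⟩ := hF _ h1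
  have hex : ∃ Y, MinModel T.toCurveData X Y ∧ T.Iso (T.prod Y Z) f := ⟨Y, hY, hf⟩
  refine ⟨g f, Finset.mem_image_of_mem g hfF, ?_⟩
  have hg : g f = hex.choose := dif_pos hex
  rw [hg]
  exact hcan _ _ hY.1 hex.choose_spec.1.1
    (h.iso_equiv.trans hf (h.iso_equiv.symm hex.choose_spec.2))

theorem q1_shift {n r j : ℕ} {κ : WithBot ℕ} (hj : j ≤ r)
    (hq : ∀ X, T.Smooth X → T.dim X = n + r → T.kod X = κ + (j : WithBot ℕ) → Q1For T.toCurveData X)
    {X : T.Var} (hX : T.Smooth X) (hd : T.dim X = n) (hk : T.kod X = κ) : Q1For T.toCurveData X := by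
  obtain ⟨Z, h1, h2, h3, h4, h5⟩ := h.complement X r j hj
  exact q1_cancel h h4 h5 (hq _ (h.smooth_prod hX h1) (by rw [h.dim_prod, hd, h2])
    (by rw [h.kod_prod, hk, h3]))

theorem q1_positive (k : ℕ) : (∀ X, T.Smooth X → (k : WithBot ℕ) ≤ T.kod X → Q1For T.toCurveData X) ↔
    ∀ X, T.Smooth X → 0 ≤ T.kod X → Q1For T.toCurveData X := by
  constructor
  · intro hq X hX hk
    obtain ⟨Z, h1, h2, h3, h4, h5⟩ := h.complement X k k le_rfl
    refine q1_cancel h h4 h5 (hq _ (h.smooth_prod hX h1) ?_)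
    rw [h.kod_prod, h3]
    exact le_add_of_nonneg_left hk
  · intro hq X hX hk
    refine hq X hX (le_trans ?_ hk)
    exact_mod_cast Nat.zero_le k

theorem q1_indecomposable : (∀ X, T.Smooth X → Q1For T.toCurveData X) ↔ ∀ X, T.Smooth X →
    (∀ A B, T.Smooth A → T.Smooth B → 0 < T.dim A → 0 < T.dim B → ¬ T.Bir X (T.prod A B)) →
      Q1For T.toCurveData X := by
  refine ⟨fun hq X hX _ => hq X hX, fun hq => ?_⟩
  have key : ∀ n : ℕ, ∀ X, T.Smooth X → T.dim X = n → Q1For T.toCurveData X := by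
    intro n
    induction n using Nat.strong_induction_on with
    | _ n ih =>
      intro X hX hd
      by_cases hdec : ∀ A B, T.Smooth A → T.Smooth B → 0 < T.dim A → 0 < T.dim B →
          ¬ T.Bir X (T.prod A B)
      · exact hq X hX hdec
      · push Not at hdec
        obtain ⟨A, B, hA, hB, hA0, hB0, hb⟩ := hdec
        have h1 : n = T.dim A + T.dim B := by rw [← hd, h.bir_dim hb, h.dim_prod]
        exact q1_bir h (h.bir_equiv.symm hb)
          (q1_prod h (ih _ (by omega) A hA rfl) (ih _ (by omega) B hB rfl))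
  exact fun X hX => key _ X hX rfl

end proofs

/-- **Minimal models of products.**  Let `T` satisfy the facts `MMPFacts`.

(1) The minimal models of `X₁ × X₂` are the varieties `Y₁ × Y₂`, `Yᵢ` a minimal model of `Xᵢ`.

(2) If `Xᵢ` has at most `mᵢ` minimal models up to isomorphism, then `X₁ × X₂` has at most `m₁ m₂`.

(3) If **Q1** holds for the varieties in a class `Seed` then it holds for all varieties obtained
from them by products and birational changes.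

(4) For `j ≤ r`, **Q1** in dimension `n + r` and Kodaira dimension `κ + j` implies **Q1** in
dimension `n` and Kodaira dimension `κ`.

(5) For each `k`, **Q1** for all varieties of Kodaira dimension at least `k` is equivalent to
**Q1** for all varieties of Kodaira dimension at least `0`.

(6) **Q1** is equivalent to **Q1** for the varieties which are not birational to the product of two
smooth projective varieties of positive dimension. -/
theorem result (T : MMPData.{u}) (h : MMPFacts T) :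
    (∀ X₁ X₂ W, MinModel T.toCurveData (T.prod X₁ X₂) W ↔
      ∃ Y₁ Y₂, MinModel T.toCurveData X₁ Y₁ ∧ MinModel T.toCurveData X₂ Y₂ ∧ T.Iso W (T.prod Y₁ Y₂)) ∧
    (∀ X₁ X₂ m₁ m₂, AtMost T.toCurveData X₁ m₁ → AtMost T.toCurveData X₂ m₂ → AtMost T.toCurveData (T.prod X₁ X₂) (m₁ * m₂)) ∧
    (∀ Seed : T.Var → Prop, (∀ X, Seed X → Q1For T.toCurveData X) → ∀ X, Generated T.toVarData Seed X → Q1For T.toCurveData X) ∧
    (∀ (n r j : ℕ) (κ : WithBot ℕ), j ≤ r →
      (∀ X, T.Smooth X → T.dim X = n + r → T.kod X = κ + (j : WithBot ℕ) → Q1For T.toCurveData X) →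
        ∀ X, T.Smooth X → T.dim X = n → T.kod X = κ → Q1For T.toCurveData X) ∧
    (∀ k : ℕ, (∀ X, T.Smooth X → (k : WithBot ℕ) ≤ T.kod X → Q1For T.toCurveData X) ↔
      ∀ X, T.Smooth X → 0 ≤ T.kod X → Q1For T.toCurveData X) ∧
    ((∀ X, T.Smooth X → Q1For T.toCurveData X) ↔ ∀ X, T.Smooth X →
      (∀ A B, T.Smooth A → T.Smooth B → 0 < T.dim A → 0 < T.dim B → ¬ T.Bir X (T.prod A B)) →
        Q1For T.toCurveData X) :=
  ⟨fun _ _ _ => minModel_prod h, fun _ _ _ _ => atMost_prod h, fun _ hS _ => q1_generated h hS,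
    fun _ _ _ _ hj hq _ => q1_shift h hj hq, q1_positive h, q1_indecomposable h⟩

end Pool.Agent.Results.MP_beb4a5_ag.Products
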