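import Mathlib

/-!
# MP_beb4a5_ag: absolute, relative and equivariant finiteness of minimal models

`Geo` is the language of birational geometry used here: the normal projective varieties over `ℂ`
and their dominant rational maps.  `Facts` records known facts.  Group actions, quotients, relative
and equivariant minimal models and their isomorphisms are defined in Lean, and everything else is
proved here.
-/

set_option autoImplicit false
set_option linter.checkUnivs false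

namespace Pool.Agent.Results.MP_beb4a5_ag.RelativeModels

open CategoryTheory

universe v u

/-- The normal projective varieties over `ℂ`, their dominant rational maps, and some of their
invariants. -/
structure Geo where
  /-- the normal projective varieties over `ℂ` -/
  V : Type u
  /-- the dominant rational maps -/
  [cat : Category.{v} V]
  /-- the rational map is a morphism -/
  Reg : ∀ {X Y : V}, (X ⟶ Y) → Prop
  /-- the morphism has connected fibres -/
  Conn : ∀ {X Y : V}, (X ⟶ Y) → Prop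
  /-- `X` is smooth -/
  Smooth : V → Prop
  /-- `Y` has only terminal singularities -/
  Terminal : V → Prop
  /-- the dimension -/
  dim : V → ℕ
  /-- the Kodaira dimension of a resolution, `⊥` for `-∞` -/
  kod : V → WithBot ℕ
  /-- the Kodaira dimension of the general fibre of a morphism with connected fibres -/
  relKod : ∀ {X Y : V}, (X ⟶ Y) → WithBot ℕ
  /-- the first Betti number is zero -/
  BettiZero : V → Prop
  /-- the Weil divisors which are invariant under the automorphisms in the set are `ℚ`-Cartier -/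
  QFact : ∀ Y : V, Set (Y ⟶ Y) → Prop
  /-- the automorphism has no fixed point -/
  NoFix : ∀ {Y : V}, (Y ⟶ Y) → Prop
  /-- the curves on `Y` -/
  Curve : V → Type u
  /-- the degree of the canonical divisor on a curve -/
  K : ∀ {Y : V}, Curve Y → ℝ
  /-- the curve is rational -/
  Rat : ∀ {Y : V}, Curve Y → Prop
  /-- the morphism maps the curve to a point -/
  Contracts : ∀ {Y S : V}, (Y ⟶ S) → Curve Y → Prop
  /-- the point -/
  pt : V
  /-- the product of two varieties -/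
  prod : V → V → V
  /-- the projection of a product to the second factor -/
  snd : ∀ Y Z : V, prod Y Z ⟶ Z
  /-- the product of two maps -/
  map : ∀ {Y Y' Z Z' : V}, (Y ⟶ Y') → (Z ⟶ Z') → (prod Y Z ⟶ prod Y' Z')
  map_id : ∀ Y Z : V, map (𝟙 Y) (𝟙 Z) = 𝟙 (prod Y Z)
  map_comp : ∀ {Y Y' Y'' Z Z' Z'' : V} (f : Y ⟶ Y') (f' : Y' ⟶ Y'') (g : Z ⟶ Z') (g' : Z' ⟶ Z''),
    map (f ≫ f') (g ≫ g') = map f g ≫ map f' g'
  reg_id : ∀ X : V, Reg (𝟙 X)
  reg_comp : ∀ {X Y Z : V} (f : X ⟶ Y) (g : Y ⟶ Z), Reg f → Reg g → Reg (f ≫ g)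
  reg_map : ∀ {Y Y' Z Z' : V} (f : Y ⟶ Y') (g : Z ⟶ Z'), Reg f → Reg g → Reg (map f g)

attribute [instance] Geo.cat

/-- A variety with an action of the group `G`. -/
structure GVar (T : Geo.{v, u}) (G : Type) [Group G] where
  /-- the variety -/
  X : T.V
  /-- the action -/
  act : G → (X ⟶ X)
  act_one : act 1 = 𝟙 X
  act_mul : ∀ g g', act (g * g') = act g' ≫ act g
  reg : ∀ g, T.Reg (act g)

section defs

variable {T : Geo.{v, u}} {G : Type} [Group G]

/-- `Y` and `Y'` are isomorphic varieties -/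
def Biregular (Y Y' : T.V) : Prop := ∃ e : Y ≅ Y', T.Reg e.hom ∧ T.Reg e.inv

/-- `S` contains no rational curve -/
def NoRat (S : T.V) : Prop := ∀ c : T.Curve S, ¬ T.Rat c

/-- `K_Y` is nef -/
def Nef (Y : T.V) : Prop := ∀ c : T.Curve Y, 0 ≤ T.K c

/-- `K_Y` is nef over `S` -/
def NefOver {Y S : T.V} (f : Y ⟶ S) : Prop := ∀ c : T.Curve Y, T.Contracts f c → 0 ≤ T.K c

/-- the rational map is equivariant -/
def Equi (W W' : GVar T G) (f : W.X ⟶ W'.X) : Prop :=
  ∀ g, W.act g ≫ f = f ≫ W'.act g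

/-- `W` and `W'` are isomorphic varieties with action -/
def GIso (W W' : GVar T G) : Prop :=
  ∃ e : W.X ≅ W'.X, T.Reg e.hom ∧ T.Reg e.inv ∧ Equi W W' e.hom

/-- the action is free -/
def Free (W : GVar T G) : Prop := ∀ g, g ≠ 1 → T.NoFix (W.act g)

/-- `π : W → M` is the quotient by `G` -/
def IsQuot (W : GVar T G) {M : T.V} (π : W.X ⟶ M) : Prop :=
  T.Reg π ∧ (∀ g, W.act g ≫ π = π) ∧
    (∀ (N : T.V) (f : W.X ⟶ N), (∀ g, W.act g ≫ f = f) →
      ∃ f' : M ⟶ N, π ≫ f' = f ∧ (T.Reg f → T.Reg f')) ∧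
    ∀ (N : T.V) (f f' : M ⟶ N), π ≫ f = π ≫ f' → f = f'

/-- the diagonal action on `Y × Z` -/
def GVar.times (Y Z : GVar T G) : GVar T G where
  X := T.prod Y.X Z.X
  act := fun g => T.map (Y.act g) (Z.act g)
  act_one := by rw [Y.act_one, Z.act_one, T.map_id]
  act_mul := fun g g' => by rw [Y.act_mul, Z.act_mul, T.map_comp]
  reg := fun g => T.reg_map _ _ (Y.reg g) (Z.reg g)

/-- the action of the first factor of a product of groups -/
def GVar.left {G₀ Γ : Type} [Group G₀] [Group Γ] (W : GVar T (G₀ × Γ)) : GVar T G₀ where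
  X := W.X
  act := fun g => W.act (g, 1)
  act_one := W.act_one
  act_mul := fun g g' => by rw [← W.act_mul, Prod.mk_mul_mk, one_mul]
  reg := fun g => W.reg (g, 1)

/-- the action of the second factor of a product of groups -/
def GVar.right {G₀ Γ : Type} [Group G₀] [Group Γ] (W : GVar T (G₀ × Γ)) : GVar T Γ where
  X := W.X
  act := fun g => W.act (1, g)
  act_one := W.act_one
  act_mul := fun g g' => by rw [← W.act_mul, Prod.mk_mul_mk, one_mul]
  reg := fun g => W.reg (1, g)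

/-- `n - κ`, which is infinite for `κ = -∞` -/
def defect (n : ℕ) (κ : WithBot ℕ) : ℕ∞ :=
  WithBot.recBotCoe (C := fun _ => ℕ∞) ⊤ (fun k => ((n - k : ℕ) : ℕ∞)) κ

end defs

/-- An equivariant fibration `X → S` of a smooth variety over a normal one. -/
structure Fib (T : Geo.{v, u}) (G : Type) [Group G] where
  X : GVar T G
  S : GVar T G
  /-- the fibration -/
  h : X.X ⟶ S.X
  smooth : T.Smooth X.X
  reg : T.Reg h
  conn : T.Conn h
  equi : Equi X S h

section models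

variable {T : Geo.{v, u}} {G : Type} [Group G]

/-- the dimension minus the Kodaira dimension of the general fibre -/
def Fib.defect (F : Fib T G) : ℕ∞ :=
  RelativeModels.defect (T.dim F.X.X - T.dim F.S.X) (T.relKod F.h)

/-- A minimal model of `X` over `S` with `G`-action (and a birational map to `X`). -/
structure Model (F : Fib T G) where
  Y : GVar T G
  /-- the birational map to `X` -/
  φ : Y.X ≅ F.X.X
  equi : Equi Y F.X φ.hom
  reg : T.Reg (φ.hom ≫ F.h)
  terminal : T.Terminal Y.X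
  qfact : T.QFact Y.X (Set.range Y.act)
  nef : NefOver (φ.hom ≫ F.h)

/-- two models are isomorphic over `S`, compatibly with the action (but not necessarily with the
birational maps to `X`) -/
def IsoOver {F : Fib T G} (a b : Model F) : Prop :=
  ∃ e : a.Y.X ≅ b.Y.X, T.Reg e.hom ∧ T.Reg e.inv ∧ Equi a.Y b.Y e.hom ∧
    e.hom ≫ b.φ.hom ≫ F.h = a.φ.hom ≫ F.h

/-- finitely many elements represent all elements up to `r` -/
def FinitelyMany {α : Type*} (r : α → α → Prop) : Prop :=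
  ∃ s : Set α, s.Finite ∧ ∀ a, ∃ b ∈ s, r a b

/-- `Y` is a minimal model of `X` -/
def MinModel (X Y : T.V) : Prop := Nonempty (Y ≅ X) ∧ T.Terminal Y ∧ T.QFact Y {𝟙 Y} ∧ Nef Y

/-- **Q1** for `X`: there are only finitely many minimal models of `X` up to isomorphism -/
def Q1For (X : T.V) : Prop :=
  ∃ s : Set T.V, s.Finite ∧ ∀ Y, MinModel X Y → ∃ Y' ∈ s, Biregular Y Y'

/-- **(A)**: **Q1** for all smooth `X` with `dim X - κ(X) ≤ d` -/
def Absolute (T : Geo.{v, u}) (d : ℕ∞) : Prop :=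
  ∀ X : T.V, T.Smooth X → defect (T.dim X) (T.kod X) ≤ d → Q1For X

/-- **(B)** for `G = 1`, **(C)**: there are only finitely many minimal models of `X` over `S` with
`G`-action, up to isomorphism over `S`, if `dim F - κ(F) ≤ d` for the general fibre `F` -/
def Relative (T : Geo.{v, u}) (G : Type) [Group G] (d : ℕ∞) : Prop :=
  ∀ F : Fib T G, F.defect ≤ d → FinitelyMany (IsoOver (F := F))

/-- the situation in **(D)**: `X` is the quotient of `X'` by a free action, `S` is the quotient of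
`S'`, `S'` has no rational curve, and `f : X → S` is induced by `X' → S'` -/
structure Over (F : Fib T G) {X S : T.V} (f : X ⟶ S) : Prop where
  free : Free F.X
  noRat : NoRat F.S.X
  quot : ∃ (π : F.X.X ⟶ X) (σ : F.S.X ⟶ S), IsQuot F.X π ∧ IsQuot F.S σ ∧ π ≫ f = F.h ≫ σ

/-- **(D)**: **Q1** for all `X` in the situation `Over` with `dim F - κ(F) ≤ d` -/
def Irregular (T : Geo.{v, u}) (d : ℕ∞) : Prop :=
  ∀ (G : Type) [Group G] [Finite G] (F : Fib T G) {X S : T.V} (f : X ⟶ S), Over F f →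
    F.defect ≤ d → Q1For X

/-- `Y'` with its map `p` to `Y`, `Y` a model of `X` over `S`: the base change of `Y` -/
structure Lift {G₀ Γ : Type} [Group G₀] [Group Γ] (F : Fib T G₀) (F' : Fib T (G₀ × Γ))
    (π : F'.X.X ⟶ F.X.X) (a : Model F) where
  Y' : GVar T (G₀ × Γ)
  φ' : Y'.X ≅ F'.X.X
  p : Y'.X ⟶ a.Y.X
  equi : Equi Y' F'.X φ'.hom
  quot : IsQuot Y'.right p
  left : Equi Y'.left a.Y p
  comm : φ'.hom ≫ π = p ≫ a.φ.hom
  terminal : T.Terminal Y'.X
  /-- `K` is the pull back of `K_Y` on the curves in the fibres over `S'` -/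
  curve : ∀ c' : T.Curve Y'.X, T.Contracts (φ'.hom ≫ F'.h) c' → ∃ c : T.Curve a.Y.X,
    T.Contracts (a.φ.hom ≫ F.h) c ∧ ∃ t : ℝ, 0 < t ∧ T.K c' = t * T.K c

/-- A Galois cover `S' → S` of the base with group `Γ`, `S'` of general type without rational
curves, and its base changes `X' → S'` of `X → S` and `Y' → S'` of all models `Y`. -/
structure BaseChange {G₀ : Type} [Group G₀] (F : Fib T G₀) where
  Γ : Type
  [group : Group Γ]
  [finite : Finite Γ]
  F' : Fib T (G₀ × Γ)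
  π : F'.X.X ⟶ F.X.X
  σ : F'.S.X ⟶ F.S.X
  quotX : IsQuot F'.X.right π
  quotS : IsQuot F'.S.right σ
  comm : F'.h ≫ σ = π ≫ F.h
  noRat : NoRat F'.S.X
  general : T.kod F'.S.X = (T.dim F'.S.X : WithBot ℕ)
  relKod : T.relKod F'.h = T.relKod F.h
  lift : ∀ a : Model F, Nonempty (Lift F F' π a)

attribute [instance] BaseChange.group BaseChange.finite

end models

/-- Known facts on singularities, curves and Kodaira dimensions. -/
structure VarFacts (T : Geo.{v, u}) : Prop where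
  smooth_terminal : ∀ {X : T.V}, T.Smooth X → T.Terminal X
  /-- a rational map from a variety with terminal singularities to a variety without rational curves
  is a morphism (Hacon-McKernan) -/
  extend : ∀ {Y S : T.V} (f : Y ⟶ S), T.Terminal Y → NoRat S → T.Reg f
  /-- cone theorem: if `K_Y` is not nef then it is negative on a rational curve -/
  cone : ∀ {Y : T.V}, T.Terminal Y → ∀ c : T.Curve Y, T.K c < 0 → ∃ c : T.Curve Y, T.Rat c ∧ T.K c < 0
  /-- the image of a rational curve is a rational curve or a point -/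
  image : ∀ {Y S : T.V} (f : Y ⟶ S), T.Reg f → ∀ c : T.Curve Y, T.Rat c → ¬ T.Contracts f c →
    ∃ c' : T.Curve S, T.Rat c'
  /-- Kobayashi-Ochiai -/
  finite_hom : ∀ {S : T.V}, T.kod S = (T.dim S : WithBot ℕ) → ∀ Y : T.V, Finite (Y ⟶ S)
  /-- fibrations over a base of general type (Kawamata, Viehweg) -/
  kod_base : ∀ {X S : T.V} (h : X ⟶ S), T.Smooth X → T.Reg h → T.Conn h →
    T.kod S = (T.dim S : WithBot ℕ) → T.kod X = T.relKod h + (T.dim S : WithBot ℕ)
  dim_pt : T.dim T.pt = 0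
  noRat_pt : NoRat T.pt
  to_pt : ∀ X : T.V, ∃ f : X ⟶ T.pt, T.Reg f ∧ T.Conn f ∧ T.relKod f = T.kod X

/-- the divisors on `Y × Z` come from `Y` and `Z` if `b₁(Z) = 0` -/
def QFactProd (T : Geo.{v, u}) (G : Type) [Group G] : Prop :=
  ∀ (Y Z : GVar T G), T.Terminal Y.X → T.QFact Y.X (Set.range Y.act) → T.Smooth Z.X →
    T.BettiZero Z.X → ∀ {M : T.V} (q : (Y.times Z).X ⟶ M), IsQuot (Y.times Z) q → T.QFact M {𝟙 M}

/-- families of isomorphisms `Y → Y'` parametrised by `Z`, `b₁(Z) = 0`, are constant (the connected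
automorphism group of `Y'` is an abelian variety, as `Y'` is not uniruled) -/
def Rigid (T : Geo.{v, u}) (G : Type) [Group G] : Prop :=
  ∀ (Y Y' Z : GVar T G), T.Terminal Y.X → Nef Y.X → T.Terminal Y'.X → Nef Y'.X → T.Smooth Z.X →
    T.BettiZero Z.X → ∀ e : (Y.times Z).X ≅ (Y'.times Z).X, T.Reg e.hom → T.Reg e.inv →
      Equi (Y.times Z) (Y'.times Z) e.hom → e.hom ≫ T.snd Y'.X Z.X = T.snd Y.X Z.X → GIso Y Y'

/-- Known facts on products. -/
structure ProdFacts (T : Geo.{v, u}) : Prop where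
  dim_prod : ∀ Y Z, T.dim (T.prod Y Z) = T.dim Y + T.dim Z
  kod_prod : ∀ Y Z, T.kod (T.prod Y Z) = T.kod Y + T.kod Z
  smooth_prod : ∀ {Y Z}, T.Smooth Y → T.Smooth Z → T.Smooth (T.prod Y Z)
  terminal_prod : ∀ {Y Z}, T.Terminal Y → T.Smooth Z → T.Terminal (T.prod Y Z)
  nef_prod : ∀ {Y Z : T.V}, Nef Y → Nef Z → Nef (T.prod Y Z)
  free_prod : ∀ {G : Type} [Group G] (Y Z : GVar T G), Free Z → Free (Y.times Z)
  /-- a variety with a free action (Serre) -/
  serre : ∀ (G : Type) [Group G] [Finite G], ∃ Z : GVar T G, T.Smooth Z.X ∧ Free Z ∧ Nef Z.X ∧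
    T.kod Z.X = (T.dim Z.X : WithBot ℕ) ∧ T.BettiZero Z.X
  qfact_prod : ∀ (G : Type) [Group G] [Finite G], QFactProd T G
  rigid : ∀ (G : Type) [Group G] [Finite G], Rigid T G

/-- invariant divisors on `Y'` come from its quotient `Y` by `Γ` -/
def QFactCover (T : Geo.{v, u}) (G₀ Γ : Type) [Group G₀] [Group Γ] : Prop :=
  ∀ (Y' : GVar T (G₀ × Γ)) (Y : GVar T G₀) (p : Y'.X ⟶ Y.X), IsQuot Y'.right p →
    Equi Y'.left Y p → T.QFact Y.X (Set.range Y.act) → T.QFact Y'.X (Set.range Y'.act)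

/-- the quotient by a free action is étale -/
def FreeQuot (T : Geo.{v, u}) (G : Type) [Group G] : Prop :=
  ∀ (W : GVar T G) {M : T.V} (π : W.X ⟶ M), Free W → IsQuot W π →
    (T.Smooth W.X → T.Smooth M) ∧ (T.Terminal W.X → T.Terminal M) ∧ T.kod M = T.kod W.X ∧
      ∀ c : T.Curve M, ∃ c' : T.Curve W.X, ∃ t : ℝ, 0 < t ∧ T.K c' = t * T.K c

/-- a variety has only finitely many étale Galois covers with group `G` -/
def FreeFinite (T : Geo.{v, u}) (G : Type) [Group G] : Prop :=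
  ∀ N : T.V, ∃ L : Set (GVar T G), L.Finite ∧
    ∀ (W : GVar T G) (π : W.X ⟶ N), Free W → IsQuot W π → ∃ W₀ ∈ L, GIso W W₀

/-- étale covers of terminal varieties are birational invariants (Takayama) -/
def FreeLift (T : Geo.{v, u}) (G : Type) [Group G] : Prop :=
  ∀ (W : GVar T G) {M : T.V} (π : W.X ⟶ M), Free W → IsQuot W π → T.Terminal M →
    ∀ {Y : T.V} (φ : Y ≅ M), T.Terminal Y → ∃ (W' : GVar T G) (π' : W'.X ⟶ Y) (φ' : W'.X ≅ W.X),
      IsQuot W' π' ∧ T.Terminal W'.X ∧ φ'.hom ≫ π = π' ≫ φ.hom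

/-- the quotient of a fibration by a free action -/
def FreeFib (T : Geo.{v, u}) (G : Type) [Group G] : Prop :=
  ∀ (F : Fib T G) {X S : T.V} (π : F.X.X ⟶ X) (σ : F.S.X ⟶ S) (h : X ⟶ S), Free F.X →
    IsQuot F.X π → IsQuot F.S σ → π ≫ h = F.h ≫ σ → T.Conn h ∧ T.relKod h = T.relKod F.h

/-- Known facts on quotients. -/
structure QuotFacts (T : Geo.{v, u}) : Prop where
  quot : ∀ {G : Type} [Group G] [Finite G] (W : GVar T G), ∃ (M : T.V) (π : W.X ⟶ M), IsQuot W π
  quot_dim : ∀ {G : Type} [Group G] [Finite G] (W : GVar T G) {M : T.V} (π : W.X ⟶ M),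
    IsQuot W π → T.dim M = T.dim W.X
  qfact : ∀ (G₀ Γ : Type) [Group G₀] [Group Γ] [Finite G₀] [Finite Γ], QFactCover T G₀ Γ
  free : ∀ (G : Type) [Group G] [Finite G], FreeQuot T G
  free_finite : ∀ (G : Type) [Group G] [Finite G], FreeFinite T G
  free_lift : ∀ (G : Type) [Group G] [Finite G], FreeLift T G
  free_fib : ∀ (G : Type) [Group G] [Finite G], FreeFib T G

/-- The known facts used here. -/
structure Facts (T : Geo.{v, u}) : Prop extends VarFacts T, ProdFacts T, QuotFacts T where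
  /-- base change of a finite morphism `S → S / G₀ → ℙ^m` by a general translate of the quotient
  `E^m → ℙ^m`, `E` an elliptic curve (Kleiman: it is smooth, and the base changes of terminal
  varieties are terminal; Fulton-Hansen: it is irreducible) -/
  base_change : ∀ {G₀ : Type} [Group G₀] [Finite G₀] (F : Fib T G₀), Nonempty (BaseChange F)

section general

/-- codes in a finite set -/
theorem finitelyMany_of_code {α : Type*} {r : α → α → Prop} (κ : Type*) [Finite κ]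
    (R : α → κ → Prop) (h1 : ∀ a, ∃ k, R a k) (h2 : ∀ a a' k, R a k → R a' k → r a a') :
    FinitelyMany r := by
  classical
  let f : {k : κ // ∃ a, R a k} → α := fun k => k.2.choose
  refine ⟨Set.range f, Set.finite_range f, fun a => ?_⟩
  obtain ⟨k, hk⟩ := h1 a
  exact ⟨f ⟨k, a, hk⟩, ⟨_, rfl⟩, h2 _ _ k hk (Exists.choose_spec (⟨a, hk⟩ : ∃ a, R a k))⟩

/-- refining a relation by codes in finite sets -/
theorem FinitelyMany.refine {α : Type*} {r r' : α → α → Prop} (h : FinitelyMany r)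
    (H : ∀ b, ∃ (κ : Type*) (_ : Finite κ) (R : α → κ → Prop), (∀ a, r a b → ∃ k, R a k) ∧
      ∀ a a' k, R a k → R a' k → r' a a') : FinitelyMany r' := by
  classical
  obtain ⟨s, hs, h1⟩ := h
  have h2 : ∀ b, ∃ t : Set α, t.Finite ∧ ∀ a, r a b → ∃ a' ∈ t, r' a a' := by
    intro b
    obtain ⟨κ, _, R, h3, h4⟩ := H b
    let f : {k : κ // ∃ a, R a k} → α := fun k => k.2.choose
    refine ⟨Set.range f, Set.finite_range f, fun a ha => ?_⟩
    obtain ⟨k, hk⟩ := h3 a ha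
    exact ⟨f ⟨k, a, hk⟩, ⟨_, rfl⟩, h4 _ _ k hk (Exists.choose_spec (⟨a, hk⟩ : ∃ a, R a k))⟩
  choose t ht h3 using h2
  refine ⟨⋃ b ∈ s, t b, hs.biUnion fun b _ => ht b, fun a => ?_⟩
  obtain ⟨b, hb, hab⟩ := h1 a
  obtain ⟨a', ha', h4⟩ := h3 b a hab
  exact ⟨a', Set.mem_biUnion hb ha', h4⟩

theorem aux_code {C : Type*} [Category C] {A B D Z : C} (e : A ≅ B) (e' : D ≅ B) (s : A ⟶ Z)
    (s' : D ⟶ Z) (k : B ⟶ Z) (h : e.inv ≫ s = k) (h' : e'.inv ≫ s' = k) :
    (e.hom ≫ e'.inv) ≫ s' = s := by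
  rw [Category.assoc, h', ← h, e.hom_inv_id_assoc]

theorem aux_equi {C : Type*} [Category C] {A B A' B' : C} {p : A ⟶ A'} {p' : B ⟶ B'} {e : A ⟶ B}
    {f : A' ⟶ B'} {α : A ⟶ A} {α' : A' ⟶ A'} {β : B ⟶ B} {β' : B' ⟶ B'} (h1 : p ≫ f = e ≫ p')
    (h2 : α ≫ p = p ≫ α') (h3 : β ≫ p' = p' ≫ β') (h4 : α ≫ e = e ≫ β) :
    p ≫ α' ≫ f = p ≫ f ≫ β' := by
  rw [← Category.assoc, ← h2, Category.assoc, h1, ← Category.assoc, h4, Category.assoc, h3,
    ← Category.assoc, ← h1, Category.assoc]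

theorem aux_over {C : Type*} [Category C] {Y' W' Y W X' X S' S : C} {p : Y' ⟶ Y} {q : W' ⟶ W}
    {e : Y' ⟶ W'} {f : Y ⟶ W} {φ' : Y' ⟶ X'} {ψ' : W' ⟶ X'} {φ : Y ⟶ X} {ψ : W ⟶ X} {π : X' ⟶ X}
    {h' : X' ⟶ S'} {σ : S' ⟶ S} {h : X ⟶ S} (h1 : p ≫ f = e ≫ q) (h2 : φ' ≫ π = p ≫ φ)
    (h3 : ψ' ≫ π = q ≫ ψ) (h4 : h' ≫ σ = π ≫ h) (h5 : e ≫ ψ' ≫ h' = φ' ≫ h') :
    p ≫ f ≫ ψ ≫ h = p ≫ φ ≫ h := by
  calc p ≫ f ≫ ψ ≫ h = (p ≫ f) ≫ ψ ≫ h := by rw [Category.assoc]
    _ = e ≫ (q ≫ ψ) ≫ h := by rw [h1]; simp only [Category.assoc]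
    _ = e ≫ ψ' ≫ π ≫ h := by rw [← h3]; simp only [Category.assoc]
    _ = (e ≫ ψ' ≫ h') ≫ σ := by rw [← h4]; simp only [Category.assoc]
    _ = (φ' ≫ h') ≫ σ := by rw [h5]
    _ = (φ' ≫ π) ≫ h := by rw [Category.assoc, h4, Category.assoc]
    _ = p ≫ φ ≫ h := by rw [h2, Category.assoc]

end general

section actions

variable {T : Geo.{v, u}} {G : Type} [Group G]

theorem Equi.inv {W W' : GVar T G} {e : W.X ≅ W'.X} (h : Equi W W' e.hom) : Equi W' W e.inv := by
  intro g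
  rw [← cancel_epi e.hom, ← Category.assoc, ← h g, Category.assoc, e.hom_inv_id, Category.comp_id,
    e.hom_inv_id_assoc]

theorem Equi.comp {W W' W'' : GVar T G} {f : W.X ⟶ W'.X} {f' : W'.X ⟶ W''.X} (h : Equi W W' f)
    (h' : Equi W' W'' f') : Equi W W'' (f ≫ f') := by
  intro g
  rw [← Category.assoc, h g, Category.assoc, h' g, Category.assoc]

theorem GIso.symm {W W' : GVar T G} (h : GIso W W') : GIso W' W := by
  obtain ⟨e, h1, h2, h3⟩ := h
  exact ⟨e.symm, h2, h1, h3.inv⟩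

theorem GIso.trans {W W' W'' : GVar T G} (h : GIso W W') (h' : GIso W' W'') : GIso W W'' := by
  obtain ⟨e, h1, h2, h3⟩ := h
  obtain ⟨e', h1', h2', h3'⟩ := h'
  exact ⟨e ≪≫ e', T.reg_comp _ _ h1 h1', T.reg_comp _ _ h2' h2, h3.comp h3'⟩

theorem Biregular.symm {Y Y' : T.V} (h : Biregular Y Y') : Biregular Y' Y := by
  obtain ⟨e, h1, h2⟩ := h
  exact ⟨e.symm, h2, h1⟩

theorem Biregular.trans {Y Y' Y'' : T.V} (h : Biregular Y Y') (h' : Biregular Y' Y'') :
    Biregular Y Y'' := by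
  obtain ⟨e, h1, h2⟩ := h
  obtain ⟨e', h1', h2'⟩ := h'
  exact ⟨e ≪≫ e', T.reg_comp _ _ h1 h1', T.reg_comp _ _ h2' h2⟩

/-- an equivariant birational map induces a birational map of the quotients -/
theorem quot_iso {W W' : GVar T G} {M M' : T.V} {π : W.X ⟶ M} {π' : W'.X ⟶ M'} (h : IsQuot W π)
    (h' : IsQuot W' π') (e : W.X ≅ W'.X) (he : Equi W W' e.hom) :
    ∃ f : M ≅ M', π ≫ f.hom = e.hom ≫ π' ∧ (T.Reg e.hom → T.Reg f.hom) ∧
      (T.Reg e.inv → T.Reg f.inv) := by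
  obtain ⟨f, hf, hfr⟩ := h.2.2.1 M' (e.hom ≫ π') fun g => by
    rw [← Category.assoc, he g, Category.assoc, h'.2.1]
  obtain ⟨f', hf', hfr'⟩ := h'.2.2.1 M (e.inv ≫ π) fun g => by
    rw [← Category.assoc, he.inv g, Category.assoc, h.2.1]
  refine ⟨⟨f, f', ?_, ?_⟩, hf, fun hr => hfr (T.reg_comp _ _ hr h'.1),
    fun hr => hfr' (T.reg_comp _ _ hr h.1)⟩
  · apply h.2.2.2
    rw [← Category.assoc, hf, Category.assoc, hf', e.hom_inv_id_assoc, Category.comp_id]
  · apply h'.2.2.2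
    rw [← Category.assoc, hf', Category.assoc, hf, e.inv_hom_id_assoc, Category.comp_id]

theorem IsQuot.comp_iso {W : GVar T G} {M M' : T.V} {π : W.X ⟶ M} (h : IsQuot W π) (e : M ≅ M')
    (h1 : T.Reg e.hom) (h2 : T.Reg e.inv) : IsQuot W (π ≫ e.hom) := by
  refine ⟨T.reg_comp _ _ h.1 h1, fun g => ?_, fun N f hf => ?_, fun N f f' hff => ?_⟩
  · rw [← Category.assoc, h.2.1 g]
  · obtain ⟨f', h3, h4⟩ := h.2.2.1 N f hf
    refine ⟨e.inv ≫ f', ?_, fun hr => T.reg_comp _ _ h2 (h4 hr)⟩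
    rw [Category.assoc, e.hom_inv_id_assoc, h3]
  · rw [Category.assoc, Category.assoc] at hff
    have h3 := h.2.2.2 _ _ _ hff
    rwa [cancel_epi] at h3

end actions

section forward

variable {T : Geo.{v, u}} (h : Facts T)

include h

theorem nef_of_nefOver {Y S : T.V} (f : Y ⟶ S) (hr : T.Reg f) (hY : T.Terminal Y) (hS : NoRat S)
    (hn : NefOver f) : Nef Y := by
  intro c
  by_contra hc
  push Not at hc
  obtain ⟨c', h1, h2⟩ := h.cone hY c hc
  by_cases h3 : T.Contracts f c'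
  · exact absurd (hn c' h3) (not_le.2 h2)
  · obtain ⟨c'', h4⟩ := h.image f hr c' h1 h3
    exact hS c'' h4

theorem lift_reg {G₀ : Type} [Group G₀] [Finite G₀] {F : Fib T G₀} (B : BaseChange F)
    {a : Model F} (L : Lift F B.F' B.π a) : T.Reg (L.φ'.hom ≫ B.F'.h) :=
  h.extend _ L.terminal B.noRat

theorem lift_nef {G₀ : Type} [Group G₀] [Finite G₀] {F : Fib T G₀} (B : BaseChange F)
    {a : Model F} (L : Lift F B.F' B.π a) : Nef L.Y'.X := by
  refine nef_of_nefOver h _ (lift_reg h B L) L.terminal B.noRat fun c' hc' => ?_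
  obtain ⟨c, hc, t, ht, h1⟩ := L.curve c' hc'
  rw [h1]
  exact mul_nonneg ht.le (a.nef c hc)

theorem lift_qfact {G₀ : Type} [Group G₀] [Finite G₀] {F : Fib T G₀} (B : BaseChange F)
    {a : Model F} (L : Lift F B.F' B.π a) : T.QFact L.Y'.X (Set.range L.Y'.act) :=
  h.qfact _ _ L.Y' a.Y L.p L.quot L.left a.qfact

omit h in
/-- the product with `Z` of an equivariant birational map -/
theorem times_iso {G : Type} [Group G] {Y Y' : GVar T G} (Z : GVar T G) (e : Y.X ≅ Y'.X)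
    (he : Equi Y Y' e.hom) :
    ∃ e' : (Y.times Z).X ≅ (Y'.times Z).X, Equi (Y.times Z) (Y'.times Z) e'.hom := by
  refine ⟨⟨T.map e.hom (𝟙 Z.X), T.map e.inv (𝟙 Z.X), ?_, ?_⟩, fun g => ?_⟩
  · show T.map e.hom (𝟙 Z.X) ≫ T.map e.inv (𝟙 Z.X) = 𝟙 (T.prod Y.X Z.X)
    rw [← T.map_comp, e.hom_inv_id, Category.comp_id, T.map_id]
  · show T.map e.inv (𝟙 Z.X) ≫ T.map e.hom (𝟙 Z.X) = 𝟙 (T.prod Y'.X Z.X)
    rw [← T.map_comp, e.inv_hom_id, Category.comp_id, T.map_id]
  · show T.map (Y.act g) (Z.act g) ≫ T.map e.hom (𝟙 Z.X) =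
      T.map e.hom (𝟙 Z.X) ≫ T.map (Y'.act g) (Z.act g)
    rw [← T.map_comp, ← T.map_comp, he g, Category.comp_id, Category.id_comp]

theorem absolute_relative {d : ℕ∞} (hA : Absolute T d) {G₀ : Type} [Group G₀] [Finite G₀] :
    Relative T G₀ d := by
  intro F hd
  obtain ⟨B⟩ := h.base_change F
  let L : ∀ a : Model F, Lift F B.F' B.π a := fun a => (B.lift a).some
  let G : Type := G₀ × B.Γ
  obtain ⟨Z, hZs, hZf, hZn, hZk, hZb⟩ := h.serre G
  -- the smooth variety `X₁`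
  obtain ⟨X₁, q₁, hq₁⟩ := h.quot (B.F'.X.times Z)
  have hfree : ∀ Y : GVar T G, Free (Y.times Z) := fun Y => h.free_prod Y Z hZf
  obtain ⟨h1, -, h2, -⟩ := h.free _ _ q₁ (hfree _) hq₁
  have hX₁ : T.Smooth X₁ := h1 (h.smooth_prod B.F'.smooth hZs)
  have hdX : T.dim B.F'.X.X = T.dim F.X.X := (h.quot_dim B.F'.X.right B.π B.quotX).symm
  have hdS : T.dim B.F'.S.X = T.dim F.S.X := (h.quot_dim B.F'.S.right B.σ B.quotS).symm
  have hdim : T.dim X₁ = T.dim F.X.X + T.dim Z.X := by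
    rw [h.quot_dim _ q₁ hq₁]
    show T.dim (T.prod _ _) = _
    rw [h.dim_prod, hdX]
  have hkod : T.kod X₁ = T.relKod F.h + ((T.dim F.S.X + T.dim Z.X : ℕ) : WithBot ℕ) := by
    rw [h2]
    show T.kod (T.prod _ _) = _
    rw [h.kod_prod, h.kod_base B.F'.h B.F'.smooth B.F'.reg B.F'.conn B.general, B.relKod, hZk, hdS,
      add_assoc]
    rfl
  have hdef : defect (T.dim X₁) (T.kod X₁) = F.defect := by
    rw [hdim, hkod, Fib.defect]
    generalize T.relKod F.h = κ
    induction κ using WithBot.recBotCoe with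
    | bot => rfl
    | coe k =>
      show ((T.dim F.X.X + T.dim Z.X - (k + (T.dim F.S.X + T.dim Z.X)) : ℕ) : ℕ∞) =
        ((T.dim F.X.X - T.dim F.S.X - k : ℕ) : ℕ∞)
      congr 1
      omega
  obtain ⟨s, hs, hsX⟩ := hA X₁ hX₁ (hdef.trans_le hd)
  -- the minimal models `M a` of `X₁`
  have hquot : ∀ a : Model F, ∃ (M : T.V) (q : ((L a).Y'.times Z).X ⟶ M), IsQuot ((L a).Y'.times Z) q :=
    fun a => h.quot _
  choose M q hq using hquot
  have hM : ∀ a, MinModel X₁ (M a) := by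
    intro a
    obtain ⟨-, h3, -, h4⟩ := h.free _ _ (q a) (hfree _) (hq a)
    obtain ⟨e, he⟩ := times_iso Z (L a).φ' (L a).equi
    obtain ⟨f, -⟩ := quot_iso (hq a) hq₁ e he
    refine ⟨⟨f⟩, h3 (h.terminal_prod (L a).terminal hZs),
      h.qfact_prod _ _ Z (L a).terminal (lift_qfact h B (L a)) hZs hZb (q a) (hq a), fun c => ?_⟩
    obtain ⟨c', t, ht, h5⟩ := h4 c
    have h6 : Nef ((L a).Y'.times Z).X := h.nef_prod (lift_nef h B (L a)) hZn
    have h7 := h6 c'
    rw [h5] at h7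
    exact nonneg_of_mul_nonneg_right h7 ht
  have r1 : FinitelyMany fun a b : Model F => Biregular (M a) (M b) := by
    have : Finite s := hs
    refine finitelyMany_of_code s (fun a k => Biregular (M a) k.1) (fun a => ?_) fun a a' k h3 h4 => ?_
    · obtain ⟨Y', h3, h4⟩ := hsX _ (hM a)
      exact ⟨⟨Y', h3⟩, h4⟩
    · exact h3.trans h4.symm
  have r2 : FinitelyMany fun a b : Model F => GIso ((L a).Y'.times Z) ((L b).Y'.times Z) := by
    refine r1.refine fun b => ?_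
    obtain ⟨W, hW, hW'⟩ := h.free_finite G (M b)
    have : Finite W := hW
    refine ⟨W, inferInstance, fun a k => GIso ((L a).Y'.times Z) k.1, fun a hab => ?_,
      fun a a' k h3 h4 => h3.trans h4.symm⟩
    obtain ⟨e, h3, h4⟩ := hab
    obtain ⟨W₀, h5, h6⟩ := hW' _ (q a ≫ e.hom) (hfree _) ((hq a).comp_iso e h3 h4)
    exact ⟨⟨W₀, h5⟩, h6⟩
  have r3 : FinitelyMany fun a b : Model F => GIso (L a).Y' (L b).Y' := by
    refine r2.refine fun b => ?_
    have := h.finite_hom hZk ((L b).Y'.times Z).X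
    refine ⟨((L b).Y'.times Z).X ⟶ Z.X, inferInstance, fun a k =>
      ∃ e : ((L a).Y'.times Z).X ≅ ((L b).Y'.times Z).X, T.Reg e.hom ∧ T.Reg e.inv ∧
        Equi ((L a).Y'.times Z) ((L b).Y'.times Z) e.hom ∧ e.inv ≫ T.snd _ _ = k,
      fun a hab => ?_, fun a a' k h3 h4 => ?_⟩
    · obtain ⟨e, h3, h4, h5⟩ := hab
      exact ⟨_, e, h3, h4, h5, rfl⟩
    · obtain ⟨e, h5, h6, h7, h8⟩ := h3
      obtain ⟨e', h5', h6', h7', h8'⟩ := h4
      refine h.rigid _ _ _ Z (L a).terminal (lift_nef h B _) (L a').terminal (lift_nef h B _) hZs hZb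
        (e ≪≫ e'.symm) (T.reg_comp _ _ h5 h6') (T.reg_comp _ _ h5' h6) (h7.comp h7'.inv) ?_
      exact aux_code e e' _ _ k h8 h8'
  have r4 : FinitelyMany fun a b : Model F => ∃ e : (L a).Y'.X ≅ (L b).Y'.X, T.Reg e.hom ∧
      T.Reg e.inv ∧ Equi (L a).Y' (L b).Y' e.hom ∧
        e.hom ≫ (L b).φ'.hom ≫ B.F'.h = (L a).φ'.hom ≫ B.F'.h := by
    refine r3.refine fun b => ?_
    have := h.finite_hom B.general (L b).Y'.X
    refine ⟨(L b).Y'.X ⟶ B.F'.S.X, inferInstance, fun a k =>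
      ∃ e : (L a).Y'.X ≅ (L b).Y'.X, T.Reg e.hom ∧ T.Reg e.inv ∧ Equi (L a).Y' (L b).Y' e.hom ∧
        e.inv ≫ (L a).φ'.hom ≫ B.F'.h = k, fun a hab => ?_, fun a a' k h3 h4 => ?_⟩
    · obtain ⟨e, h3, h4, h5⟩ := hab
      exact ⟨_, e, h3, h4, h5, rfl⟩
    · obtain ⟨e, h5, h6, h7, h8⟩ := h3
      obtain ⟨e', h5', h6', h7', h8'⟩ := h4
      refine ⟨e ≪≫ e'.symm, T.reg_comp _ _ h5 h6', T.reg_comp _ _ h5' h6, h7.comp h7'.inv, ?_⟩
      exact aux_code e e' _ _ k h8 h8'
  -- divide by `Γ`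
  obtain ⟨t, ht, h3⟩ := r4
  refine ⟨t, ht, fun a => ?_⟩
  obtain ⟨b, hb, e, h4, h5, h6, h7⟩ := h3 a
  refine ⟨b, hb, ?_⟩
  have he : Equi (L a).Y'.right (L b).Y'.right e.hom := fun g => h6 (1, g)
  obtain ⟨f, h8, h9, h10⟩ := quot_iso (L a).quot (L b).quot e he
  refine ⟨f, h9 h4, h10 h5, fun g => ?_, ?_⟩
  · apply (L a).quot.2.2.2
    exact aux_equi h8 ((L a).left g) ((L b).left g) (h6 (g, 1))
  · apply (L a).quot.2.2.2
    exact aux_over h8 (L a).comm (L b).comm B.comm h7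

end forward

section backward

variable {T : Geo.{v, u}}

/-- a variety with the action of the trivial group -/
def GVar.triv (X : T.V) : GVar T Unit where
  X := X
  act := fun _ => 𝟙 X
  act_one := rfl
  act_mul := fun _ _ => (Category.comp_id _).symm
  reg := fun _ => T.reg_id X

theorem equi_triv {X Y : T.V} (f : X ⟶ Y) : Equi (GVar.triv X) (GVar.triv Y) f := by
  intro g
  show 𝟙 X ≫ f = f ≫ 𝟙 Y
  rw [Category.comp_id, Category.id_comp]

/-- a fibration without group action -/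
def Fib.ofHom {X S : T.V} (h : X ⟶ S) (hs : T.Smooth X) (hr : T.Reg h) (hc : T.Conn h) :
    Fib T Unit where
  X := GVar.triv X
  S := GVar.triv S
  h := h
  smooth := hs
  reg := hr
  conn := hc
  equi := equi_triv h

/-- a minimal model which maps to `S` is a minimal model over `S` -/
def Model.ofMin {X S : T.V} (h : X ⟶ S) (hs : T.Smooth X) (hr : T.Reg h) (hc : T.Conn h) {Y : T.V}
    (hY : MinModel X Y) (φ : Y ≅ X) (hφ : T.Reg (φ.hom ≫ h)) : Model (Fib.ofHom h hs hr hc) where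
  Y := GVar.triv Y
  φ := φ
  equi := equi_triv φ.hom
  reg := hφ
  terminal := hY.2.1
  qfact := by
    have h1 : Set.range (GVar.triv Y).act = {𝟙 Y} := Set.range_const
    rw [h1]
    exact hY.2.2.1
  nef := fun c _ => hY.2.2.2 c

/-- relative finiteness implies absolute finiteness if all minimal models map to `S` -/
theorem q1_of_relative {X S : T.V} (h : X ⟶ S) (hs : T.Smooth X) (hr : T.Reg h) (hc : T.Conn h)
    (hfin : FinitelyMany (IsoOver (F := Fib.ofHom h hs hr hc)))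
    (hall : ∀ (Y : T.V) (φ : Y ≅ X), MinModel X Y → T.Reg (φ.hom ≫ h)) : Q1For X := by
  obtain ⟨s, hs', h1⟩ := hfin
  refine ⟨(fun a : Model (Fib.ofHom h hs hr hc) => a.Y.X) '' s, hs'.image _, fun Y hY => ?_⟩
  obtain ⟨φ⟩ := hY.1
  obtain ⟨b, hb, e, h2, h3, -⟩ := h1 (Model.ofMin h hs hr hc hY φ (hall Y φ hY))
  exact ⟨b.Y.X, ⟨b, hb, rfl⟩, e, h2, h3⟩

/-- all minimal models of `X` map to `S` in the situation of **(D)** -/
theorem over_fib (hV : VarFacts T) (hQ : QuotFacts T) {G : Type} [Group G] [Finite G] (F : Fib T G)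
    {X S : T.V} (f : X ⟶ S) (hF : Over F f) : ∃ (hs : T.Smooth X) (hr : T.Reg f) (hc : T.Conn f),
      (Fib.ofHom f hs hr hc).defect = F.defect ∧
        ∀ (Y : T.V) (φ : Y ≅ X), MinModel X Y → T.Reg (φ.hom ≫ f) := by
  obtain ⟨hfree, hrat, π, σ, hπ, hσ, hf⟩ := hF
  have hinv : ∀ g, F.X.act g ≫ F.h ≫ σ = F.h ≫ σ := fun g => by
    rw [← Category.assoc, F.equi g, Category.assoc, hσ.2.1 g]
  obtain ⟨f₁, hf₁, hfr⟩ := hπ.2.2.1 S (F.h ≫ σ) hinv
  have hr : T.Reg f := by
    have h1 : f₁ = f := hπ.2.2.2 S _ _ (hf₁.trans hf.symm)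
    rw [← h1]
    exact hfr (T.reg_comp _ _ F.reg hσ.1)
  obtain ⟨hc, hk⟩ := hQ.free_fib _ F π σ f hfree hπ hσ hf
  have hs : T.Smooth X := (hQ.free _ F.X π hfree hπ).1 F.smooth
  refine ⟨hs, hr, hc, ?_, fun Y φ hY => ?_⟩
  · show defect (T.dim X - T.dim S) (T.relKod f) = defect _ _
    rw [hQ.quot_dim F.X π hπ, hQ.quot_dim F.S σ hσ, hk]
  · obtain ⟨W', π', φ', h1, h2, h3⟩ := hQ.free_lift _ F.X π hfree hπ (hV.smooth_terminal hs) φ hY.2.1
    have h4 : T.Reg ((φ'.hom ≫ F.h) ≫ σ) := T.reg_comp _ _ (hV.extend _ h2 hrat) hσ.1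
    have h5 : (φ'.hom ≫ F.h) ≫ σ = π' ≫ φ.hom ≫ f := by
      rw [Category.assoc, ← hf, ← Category.assoc, h3, Category.assoc]
    rw [h5] at h4
    obtain ⟨f', h6, h7⟩ := h1.2.2.1 S (π' ≫ φ.hom ≫ f) fun g => by
      rw [← Category.assoc, h1.2.1 g]
    have h8 : f' = φ.hom ≫ f := h1.2.2.2 S _ _ h6
    rw [← h8]
    exact h7 h4

variable (h : Facts T)

include h

theorem relative_irregular {d : ℕ∞} (hB : Relative T Unit d) : Irregular T d := by
  intro G _ _ F X S f hF hd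
  obtain ⟨hs, hr, hc, h1, h2⟩ := over_fib h.toVarFacts h.toQuotFacts F f hF
  exact q1_of_relative f hs hr hc (hB _ (h1.trans_le hd)) h2

omit h in
theorem isQuot_triv (X : T.V) : IsQuot (GVar.triv X) (𝟙 X) := by
  refine ⟨T.reg_id X, fun g => ?_, fun N f' _ => ⟨f', Category.id_comp f', fun hf => hf⟩,
    fun N f' f'' hf => ?_⟩
  · show 𝟙 X ≫ 𝟙 X = 𝟙 X
    rw [Category.comp_id]
  · change 𝟙 X ≫ f' = 𝟙 X ≫ f'' at hf
    rwa [Category.id_comp, Category.id_comp] at hf

theorem irregular_absolute {d : ℕ∞} (hD : Irregular T d) : Absolute T d := by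
  intro X hX hd
  obtain ⟨f, h1, h2, h3⟩ := h.to_pt X
  refine hD Unit (Fib.ofHom f hX h1 h2) f ⟨fun g hg => absurd rfl hg, h.noRat_pt, 𝟙 X, 𝟙 T.pt,
    isQuot_triv X, isQuot_triv T.pt, ?_⟩ ?_
  · show 𝟙 X ≫ f = f ≫ 𝟙 _
    rw [Category.id_comp, Category.comp_id]
  · show defect (T.dim X - T.dim T.pt) (T.relKod f) ≤ d
    rw [h.dim_pt, h3]
    exact hd

end backward

/-- **Absolute, relative and equivariant finiteness of minimal models.**  Let `T` satisfy `Facts`.
For every `d` in `{0, 1, ..., ∞}` the following are equivalent: `Absolute T d` (**Q1** for all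
smooth `X` with `dim X - κ(X) ≤ d`; for `d = ∞` this is **Q1**); `Relative T Unit d` (every
fibration `X → S`, `X` smooth, with `dim F - κ(F) ≤ d` for the general fibre `F`, has only finitely
many minimal models of `X` over `S` up to isomorphism over `S`); the same with the action of any
finite group on `X → S`; `Irregular T d` (**Q1** for all `X` which have a free finite cover `X'`
with an equivariant fibration `X' → S'`, `S'` without rational curves, `dim F - κ(F) ≤ d`). -/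
theorem result (T : Geo.{v, u}) (h : Facts T) (d : ℕ∞) :
    (Absolute T d ↔ Relative T Unit d) ∧
      (Absolute T d ↔ ∀ (G : Type) [Group G] [Finite G], Relative T G d) ∧
        (Absolute T d ↔ Irregular T d) := by
  have hAC : Absolute T d → ∀ (G : Type) [Group G] [Finite G], Relative T G d :=
    fun hA G _ _ => absolute_relative h hA
  have hBA : Relative T Unit d → Absolute T d :=
    fun hB => irregular_absolute h (relative_irregular h hB)
  refine ⟨⟨fun hA => hAC hA Unit, hBA⟩, ⟨hAC, fun hC => hBA (hC Unit)⟩,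
    ⟨fun hA => relative_irregular h (hAC hA Unit), irregular_absolute h⟩⟩

end Pool.Agent.Results.MP_beb4a5_ag.RelativeModels
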