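import Pool.Agent.Work.MP_beb4a5_sp.Planar

/-!
# Minimal models of small Picard number and birational self-maps of infinite order

`ModelData`: the marked minimal models of a smooth complex projective variety `X` and their flops;
`ModelFacts`: known facts.  Everything else is proved here and in `MP_beb4a5_sp`.
-/

set_option autoImplicit false

namespace Pool.Agent.Results.MP_beb4a5_ag.SmallPicard

open Relation Pool.Agent.Work.MP_beb4a5_sp

universe u

/-- The minimal models of a smooth complex projective variety `X`, as birational models of `X`. -/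
structure ModelData where
  /-- the minimal models of `X` together with a birational map to `X`, up to isomorphisms compatible
  with the birational maps to `X` -/
  Model : Type u
  /-- the group of the birational self-maps of `X` -/
  Bir : Type u
  [group : Group Bir]
  /-- `g • (Y, f) = (Y, g ∘ f)` -/
  [action : MulAction Bir Model]
  /-- the two minimal models are isomorphic varieties -/
  Iso : Model → Model → Prop
  /-- the real vector space `N₁(Y)` of the 1-cycles modulo numerical equivalence -/
  N : Model → Type u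
  [addCommGroup : ∀ Y, AddCommGroup (N Y)]
  [module : ∀ Y, Module ℝ (N Y)]
  /-- the closed cone of curves -/
  NE : ∀ Y, Set (N Y)
  /-- the degree of the canonical divisor -/
  K : ∀ Y, N Y →ₗ[ℝ] ℝ
  /-- `Flop Y c Y'`: `c` spans the ray of a flopping contraction of `Y` (small and `K`-trivial, of
  relative Picard number one), and `Y'` is the flop -/
  Flop : ∀ Y, N Y → Model → Prop

attribute [instance] ModelData.group ModelData.action ModelData.addCommGroup ModelData.module

/-- `c` spans an extremal ray of the cone of curves -/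
def Extremal (T : ModelData.{u}) (Y : T.Model) (c : T.N Y) : Prop :=
  c ≠ 0 ∧ c ∈ T.NE Y ∧ ∀ a ∈ T.NE Y, ∀ b ∈ T.NE Y, a + b = c → ∃ t : ℝ, 0 ≤ t ∧ a = t • c

/-- `Y'` is a flop of `Y` -/
def IsFlop (T : ModelData.{u}) (Y Y' : T.Model) : Prop := ∃ c, T.Flop Y c Y'

/-- `X` has at most `m` minimal models up to isomorphism -/
def AtMost (T : ModelData.{u}) (m : ℕ) : Prop :=
  ∃ w : Fin m → T.Model, ∀ Z, ∃ i, T.Iso (w i) Z

/-- `Y` and `Y'` are connected by `d` flops -/
def Connected (T : ModelData.{u}) (d : ℕ) (Y Y' : T.Model) : Prop :=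
  ∃ p : ℕ → T.Model, p 0 = Y ∧ p d = Y' ∧ ∀ i < d, IsFlop T (p i) (p (i + 1))

/-- The facts about minimal models used here. -/
structure ModelFacts (T : ModelData.{u}) : Prop where
  finite : ∀ Y, FiniteDimensional ℝ (T.N Y)
  NE_add : ∀ {Y}, ∀ a ∈ T.NE Y, ∀ b ∈ T.NE Y, a + b ∈ T.NE Y
  NE_smul : ∀ {Y} {t : ℝ}, 0 ≤ t → ∀ a ∈ T.NE Y, t • a ∈ T.NE Y
  /-- the closed cone of curves of a projective variety contains no line (Kleiman) -/
  NE_pointed : ∀ {Y}, ∀ a ∈ T.NE Y, -a ∈ T.NE Y → a = 0
  /-- two minimal models of `X` are isomorphic varieties if and only if they differ by a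
  birational self-map of `X` -/
  iso_iff : ∀ {Y Y'}, T.Iso Y Y' ↔ ∃ g : T.Bir, g • Y = Y'
  flop_ray : ∀ {Y c Y'}, T.Flop Y c Y' → Extremal T Y c ∧ T.K Y c = 0
  /-- the flop of a ray is unique -/
  flop_unique : ∀ {Y c Y' Y''} {t : ℝ}, 0 < t → T.Flop Y c Y' → T.Flop Y (t • c) Y'' → Y' = Y''
  /-- the inverse of a flop is a flop -/
  flop_symm : ∀ {Y Y'}, IsFlop T Y Y' → IsFlop T Y' Y
  /-- birational self-maps of `X` carry flops to flops -/
  flop_bir : ∀ (g : T.Bir) {Y Y'}, IsFlop T Y Y' → IsFlop T (g • Y) (g • Y')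
  /-- minimal models are connected by flops (Kawamata) -/
  flops : ∀ Y Y', ReflTransGen (IsFlop T) Y Y'
  /-- minimal models are isomorphic in codimension one, so that they have the same Picard number,
  and the canonical divisor is numerically trivial on all of them or on none -/
  trivial_dim : ∀ Y Y', Module.finrank ℝ (LinearMap.ker (T.K Y)) =
    Module.finrank ℝ (LinearMap.ker (T.K Y'))

variable {T : ModelData.{u}}

theorem two_flops (h : ModelFacts T) {Y : T.Model}
    (hY : Module.finrank ℝ (LinearMap.ker (T.K Y)) ≤ 2) {b c d : T.Model}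
    (hb : IsFlop T Y b) (hc : IsFlop T Y c) (hd : IsFlop T Y d) : b = c ∨ b = d ∨ c = d := by
  haveI := h.finite Y
  obtain ⟨x, hx⟩ := hb
  obtain ⟨y, hy⟩ := hc
  obtain ⟨z, hz⟩ := hd
  have hall : ∀ i : Fin 3, T.Flop Y (![x, y, z] i) (![b, c, d] i) := by
    intro i
    fin_cases i
    · exact hx
    · exact hy
    · exact hz
  obtain ⟨i, j, hij, t, ht, hcj⟩ := planar (T.NE Y) h.NE_add (fun t ht a ha => h.NE_smul ht a ha)
    h.NE_pointed (LinearMap.ker (T.K Y)) hY ![x, y, z] (fun i => by
      obtain ⟨⟨h1, h2, h3⟩, h4⟩ := h.flop_ray (hall i)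
      exact ⟨LinearMap.mem_ker.2 h4, h1, h2, h3⟩)
  have h5 : ![b, c, d] i = ![b, c, d] j := by
    refine h.flop_unique ht (hall i) ?_
    rw [← hcj]
    exact hall j
  fin_cases i <;> fin_cases j <;> simp_all

theorem exists_walk {R : T.Model → T.Model → Prop} {Y Y' : T.Model} (hr : ReflTransGen R Y Y') :
    ∃ (d : ℕ) (p : ℕ → T.Model), p 0 = Y ∧ p d = Y' ∧ ∀ i < d, R (p i) (p (i + 1)) := by
  induction hr with
  | refl => exact ⟨0, fun _ => Y, rfl, rfl, fun i hi => by omega⟩
  | @tail b c _ hbc ih =>
    obtain ⟨d, p, h0, hd, hp⟩ := ih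
    refine ⟨d + 1, fun i => if i ≤ d then p i else c, ?_, ?_, ?_⟩
    · simp [h0]
    · simp
    · intro i hi
      by_cases h : i + 1 ≤ d
      · simp only [h, show i ≤ d by omega, if_true]
        exact hp i (by omega)
      · have h1 : i = d := by omega
        subst h1
        simp only [le_refl, h, if_true, if_false, hd]
        exact hbc

/-- **Minimal models with a small `K`-trivial part.**  Let `Y` be a minimal model of `X` such that
the `K`-trivial part of `N₁(Y)` has dimension at most two (Picard number at most three if `K_Y` is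
not numerically trivial, at most two if it is), and let `g` be a birational self-map of `X` no
positive power of which is biregular on `Y`.  Then `X` has only finitely many minimal models up to
isomorphism: at most `d`, if `Y` and `g • Y` are connected by `d` flops. -/
theorem result (T : ModelData.{u}) (h : ModelFacts T) (Y : T.Model)
    (hY : Module.finrank ℝ (LinearMap.ker (T.K Y)) ≤ 2) (g : T.Bir)
    (hg : ∀ k : ℕ, 1 ≤ k → g ^ k • Y ≠ Y) :
    (∃ d, Connected T d Y (g • Y)) ∧ ∀ d, Connected T d Y (g • Y) → AtMost T d := by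
  refine ⟨?_, ?_⟩
  · obtain ⟨d, p, hp⟩ := exists_walk (h.flops Y (g • Y))
    exact ⟨d, p, hp⟩
  · rintro d ⟨p, h0, hd, hp⟩
    obtain ⟨w, hw⟩ := orbit_bound (R := IsFlop T) (fun hab => h.flop_symm hab)
      (fun g _ _ hab => h.flop_bir g hab)
      (fun {a} _ _ _ h1 h2 h3 => two_flops h (by rw [h.trivial_dim a Y]; exact hY) h1 h2 h3)
      h.flops g d Y hg p h0 hd hp
    refine ⟨w, fun Z => ?_⟩
    obtain ⟨i, k, hk⟩ := hw Z
    exact ⟨i, h.iso_iff.2 ⟨k, hk⟩⟩

end Pool.Agent.Results.MP_beb4a5_ag.SmallPicard
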